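import Pool.Agent.K3h5.PZ.Stm

/-! PZ project (helper5), brick STR: the recurrence. -/

set_option autoImplicit false

namespace Pool.Agent.K3h87.PZ

open Pool.Agent.K3h40.Cyc Pool.Agent.K3h5.PZ Finset Matrix

variable {d : ℕ}

lemma kk_skew (i j : ℕ) : kk j i = -kk i j := by
  unfold kk
  rw [add_comm j i]
  split_ifs <;> omega

lemma Gf_re (g : ZMod (d + 3) → ℂ) (j : ZMod (d + 3)) :
    (Gf g j).re = (1 / 2) * ∑ i : ZMod (d + 3), (kk i.val j.val : ℝ) * (g i).re := by
  unfold Gf
  have h : (1 / 2 : ℂ) = ((1 / 2 : ℝ) : ℂ) := by push_cast; rfl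
  rw [h, Complex.re_ofReal_mul, Complex.re_sum]
  congr 1
  refine Finset.sum_congr rfl fun i _ => ?_
  rw [← Complex.ofReal_intCast, Complex.re_ofReal_mul]

lemma Gf_im (g : ZMod (d + 3) → ℂ) (j : ZMod (d + 3)) :
    (Gf g j).im = (1 / 2) * ∑ i : ZMod (d + 3), (kk i.val j.val : ℝ) * (g i).im := by
  unfold Gf
  have h : (1 / 2 : ℂ) = ((1 / 2 : ℝ) : ℂ) := by push_cast; rfl
  rw [h, Complex.im_ofReal_mul, Complex.im_sum]
  congr 1
  refine Finset.sum_congr rfl fun i _ => ?_
  rw [← Complex.ofReal_intCast, Complex.im_ofReal_mul]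

lemma skew_sum (u v : ZMod (d + 3) → ℝ) :
    ∑ j, ((1 / 2) * ∑ i : ZMod (d + 3), (kk i.val j.val : ℝ) * u i) * v j =
      -∑ j, ((1 / 2) * ∑ i : ZMod (d + 3), (kk i.val j.val : ℝ) * v i) * u j := by
  simp_rw [Finset.mul_sum, Finset.sum_mul]
  rw [Finset.sum_comm, ← Finset.sum_neg_distrib]
  refine Finset.sum_congr rfl fun j _ => ?_
  rw [← Finset.sum_neg_distrib]
  refine Finset.sum_congr rfl fun i _ => ?_
  rw [kk_skew i.val j.val]
  push_cast
  ring

lemma Gf_skew (g : ZMod (d + 3) → ℂ) (hg : ∑ i, g i = 0) :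
    ∑ j, (Gf g j).re * (g j).re = 0 ∧ ∑ j, (Gf g j).im * (g j).im = 0 ∧
      ∑ j, (Gf g j).re * (g j).im = SS g ∧ ∑ j, (Gf g j).im * (g j).re = -SS g := by
  have h1 : ∑ j, (Gf g j).re * (g j).re = 0 := by
    have := skew_sum (fun i => (g i).re) (fun i => (g i).re)
    simp_rw [Gf_re]
    linarith
  have h2 : ∑ j, (Gf g j).im * (g j).im = 0 := by
    have := skew_sum (fun i => (g i).im) (fun i => (g i).im)
    simp_rw [Gf_im]
    linarith
  have h3 : ∑ j, (Gf g j).re * (g j).im = -∑ j, (Gf g j).im * (g j).re := by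
    have := skew_sum (fun i => (g i).re) (fun i => (g i).im)
    simp_rw [Gf_re, Gf_im]
    linarith
  have h4 := QQ_eq g
  rw [QQ_eq_two_SS g hg] at h4
  unfold wdg at h4
  rw [Finset.sum_sub_distrib] at h4
  exact ⟨h1, h2, by linarith, by linarith⟩

/-- the gauge -/
lemma gauge {n : ℕ} (x y lam : Fin n → ℝ) (hlam : ∀ i, 0 < lam i) (hxx : ∑ i, x i * x i = 1)
    (hyy : ∑ i, y i * y i = 1) (hxy : ∑ i, x i * y i = 0) :
    0 < ∑ i, x i * x i / lam i ∧
      0 < (∑ i, x i * x i / lam i) * (∑ i, y i * y i / lam i) - (∑ i, x i * y i / lam i) ^ 2 := by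
  have hpos : ∀ z : Fin n → ℝ, ∑ i, z i * z i ≠ 0 → 0 < ∑ i, z i * z i / lam i := by
    intro z hz
    obtain ⟨i, -, hi⟩ := Finset.exists_ne_zero_of_sum_ne_zero hz
    refine Finset.sum_pos' (fun j _ => div_nonneg (mul_self_nonneg _) (hlam j).le)
      ⟨i, Finset.mem_univ i, ?_⟩
    exact div_pos (lt_of_le_of_ne (mul_self_nonneg _) (Ne.symm hi)) (hlam i)
  have ha := hpos x (by rw [hxx]; norm_num)
  refine ⟨ha, ?_⟩
  set a := ∑ i, x i * x i / lam i with hadef
  set b := ∑ i, y i * y i / lam i with hb
  set b0 := ∑ i, x i * y i / lam i with hb0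
  have h1 : ∑ i, (b0 * x i - a * y i) * (b0 * x i - a * y i) = b0 ^ 2 + a ^ 2 := by
    have : ∀ i, (b0 * x i - a * y i) * (b0 * x i - a * y i) =
        b0 ^ 2 * (x i * x i) - 2 * a * b0 * (x i * y i) + a ^ 2 * (y i * y i) := by
      intro i; ring
    simp_rw [this]
    rw [Finset.sum_add_distrib, Finset.sum_sub_distrib, ← Finset.mul_sum, ← Finset.mul_sum,
      ← Finset.mul_sum, hxx, hyy, hxy]
    ring
  have h2 := hpos (fun i => b0 * x i - a * y i) (by rw [h1]; positivity)
  have h3 : ∑ i, (b0 * x i - a * y i) * (b0 * x i - a * y i) / lam i = a * (a * b - b0 ^ 2) := by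
    have : ∀ i, (b0 * x i - a * y i) * (b0 * x i - a * y i) / lam i =
        b0 ^ 2 * (x i * x i / lam i) - 2 * a * b0 * (x i * y i / lam i) +
          a ^ 2 * (y i * y i / lam i) := by
      intro i; ring
    simp_rw [this]
    rw [Finset.sum_add_distrib, Finset.sum_sub_distrib, ← Finset.mul_sum, ← Finset.mul_sum,
      ← Finset.mul_sum, ← hadef, ← hb, ← hb0]
    ring
  rw [h3] at h2
  exact (mul_pos_iff_of_pos_left ha).1 h2

/-- row norms from column norms -/
lemma rows (p : Fin (d + 3) → EE d) (u v lam : Fin (d + 3) → ℝ) (S : ℝ) (hS : 0 < S)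
    (hd0 : 0 < d) (hlam : ∀ i, 0 < lam i) (hn : ∀ i, ‖p i‖ = 1)
    (hL : ∑ i, lam i = d * S)
    (h1 : ∀ (l : Fin (d + 1)) (k : Fin d), ∑ i, aug p i l * (lam i * p i k) =
      if l = k.succ then S else 0)
    (hu : ∀ l, ∑ i, aug p i l * u i = 0) (hv : ∀ l, ∑ i, aug p i l * v i = 0)
    (huu : ∑ i, u i * u i / lam i = 1) (hvv : ∑ i, v i * v i / lam i = 1)
    (huv : ∑ i, u i * v i / lam i = 0) (i : Fin (d + 3)) :
    lam i * (((d : ℝ) + 1) / (d * S) + (u i / lam i) ^ 2 + (v i / lam i) ^ 2) = 1 := by
  have hd' : (0 : ℝ) < d := by exact_mod_cast hd0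
  obtain ⟨ε, -, -⟩ := exists_enum (d := d) 0 1 (by simp)
  have hs : ∀ F : Fin (d + 3) → ℝ, ∑ r, F (ε r) = ∑ i, F i := fun F => Equiv.sum_comp ε F
  let B : Matrix (Fin (d + 1) ⊕ Fin 2) (Fin (d + 1) ⊕ Fin 2) ℝ :=
    Matrix.of fun r c => Sum.elim (fun j => aug p (ε r) j)
      (fun t => if t = 0 then u (ε r) / lam (ε r) else v (ε r) / lam (ε r)) c
  let E : Fin (d + 1) ⊕ Fin 2 → ℝ :=
    Sum.elim (Fin.cons ((d * S)⁻¹) fun _ => S⁻¹) (fun _ => 1)
  let A : Matrix (Fin (d + 1) ⊕ Fin 2) (Fin (d + 1) ⊕ Fin 2) ℝ :=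
    Matrix.of fun c r => E c * (B r c * lam (ε r))
  have hne : ∀ i, lam i ≠ 0 := fun i => (hlam i).ne'
  have hAB : A * B = 1 := by
    ext c c'
    rw [Matrix.mul_apply]
    rcases c with j | t
    · rcases c' with j' | t'
      · simp only [A, B, Matrix.of_apply, Sum.elim_inl]
        have e1 : ∑ r, E (Sum.inl j) * (aug p (ε r) j * lam (ε r)) * aug p (ε r) j' =
            E (Sum.inl j) * ∑ i, aug p i j * (lam i * aug p i j') := by
          rw [hs (fun i => E (Sum.inl j) * (aug p i j * lam i) * aug p i j'), Finset.mul_sum]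
          refine Finset.sum_congr rfl fun i _ => ?_
          ring
        rw [e1]
        refine Fin.cases ?_ (fun k => ?_) j'
        · refine Fin.cases ?_ (fun k => ?_) j
          · simp only [aug_zero, one_mul, mul_one, hL, E, Sum.elim_inl, Fin.cons_zero]
            rw [Matrix.one_apply_eq]
            field_simp
          · have h2 := h1 0 k
            rw [if_neg (Fin.succ_ne_zero k).symm] at h2
            have h3 : ∑ i, aug p i k.succ * (lam i * aug p i 0) = 0 := by
              rw [← h2]
              refine Finset.sum_congr rfl fun i _ => ?_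
              rw [aug_zero, aug_succ]; ring
            rw [h3, mul_zero, Matrix.one_apply_ne]
            simp
        · have h2 := h1 j k
          have h3 : ∑ i, aug p i j * (lam i * aug p i k.succ) =
              if j = k.succ then S else 0 := by
            rw [← h2]
            rfl
          rw [h3]
          by_cases hjk : j = k.succ
          · subst hjk
            rw [if_pos rfl, Matrix.one_apply_eq]
            simp only [E, Sum.elim_inl, Fin.cons_succ]
            field_simp
          · rw [if_neg hjk, mul_zero, Matrix.one_apply_ne (by simpa using hjk)]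
      · simp only [A, B, Matrix.of_apply, Sum.elim_inl, Sum.elim_inr]
        rw [Matrix.one_apply_ne (by simp)]
        fin_cases t'
        · simp only [Fin.zero_eta, if_true]
          have e1 : ∑ r, E (Sum.inl j) * (aug p (ε r) j * lam (ε r)) * (u (ε r) / lam (ε r)) =
              E (Sum.inl j) * ∑ i, aug p i j * u i := by
            rw [hs (fun i => E (Sum.inl j) * (aug p i j * lam i) * (u i / lam i)), Finset.mul_sum]
            refine Finset.sum_congr rfl fun i _ => ?_
            have := hne i
            field_simp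
          rw [e1, hu j, mul_zero]
        · simp only [Fin.mk_one, Fin.isValue, one_ne_zero, if_false]
          have e1 : ∑ r, E (Sum.inl j) * (aug p (ε r) j * lam (ε r)) * (v (ε r) / lam (ε r)) =
              E (Sum.inl j) * ∑ i, aug p i j * v i := by
            rw [hs (fun i => E (Sum.inl j) * (aug p i j * lam i) * (v i / lam i)), Finset.mul_sum]
            refine Finset.sum_congr rfl fun i _ => ?_
            have := hne i
            field_simp
          rw [e1, hv j, mul_zero]
    · rcases c' with j' | t'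
      · simp only [A, B, Matrix.of_apply, Sum.elim_inl, Sum.elim_inr]
        rw [Matrix.one_apply_ne (by simp)]
        have hE : E (Sum.inr t) = 1 := rfl
        rw [hE]
        fin_cases t
        · simp only [Fin.zero_eta, if_true]
          have e1 : ∑ r, 1 * (u (ε r) / lam (ε r) * lam (ε r)) * aug p (ε r) j' =
              ∑ i, aug p i j' * u i := by
            rw [hs (fun i => 1 * (u i / lam i * lam i) * aug p i j')]
            refine Finset.sum_congr rfl fun i _ => ?_
            have := hne i
            field_simp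
          rw [e1, hu j']
        · simp only [Fin.mk_one, Fin.isValue, one_ne_zero, if_false]
          have e1 : ∑ r, 1 * (v (ε r) / lam (ε r) * lam (ε r)) * aug p (ε r) j' =
              ∑ i, aug p i j' * v i := by
            rw [hs (fun i => 1 * (v i / lam i * lam i) * aug p i j')]
            refine Finset.sum_congr rfl fun i _ => ?_
            have := hne i
            field_simp
          rw [e1, hv j']
      · simp only [A, B, Matrix.of_apply, Sum.elim_inr]
        have hE : E (Sum.inr t) = 1 := rfl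
        rw [hE]
        fin_cases t <;> fin_cases t'
        · simp only [Fin.zero_eta, if_true]
          have e1 : ∑ r, 1 * (u (ε r) / lam (ε r) * lam (ε r)) * (u (ε r) / lam (ε r)) =
              ∑ i, u i * u i / lam i := by
            rw [hs (fun i => 1 * (u i / lam i * lam i) * (u i / lam i))]
            refine Finset.sum_congr rfl fun i _ => ?_
            have := hne i
            field_simp
          rw [e1, huu]; simp
        · simp only [Fin.zero_eta, if_true, Fin.mk_one, Fin.isValue, one_ne_zero, if_false]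
          have e1 : ∑ r, 1 * (u (ε r) / lam (ε r) * lam (ε r)) * (v (ε r) / lam (ε r)) =
              ∑ i, u i * v i / lam i := by
            rw [hs (fun i => 1 * (u i / lam i * lam i) * (v i / lam i))]
            refine Finset.sum_congr rfl fun i _ => ?_
            have := hne i
            field_simp
          rw [e1, huv]; simp
        · simp only [Fin.zero_eta, if_true, Fin.mk_one, Fin.isValue, one_ne_zero, if_false]
          have e1 : ∑ r, 1 * (v (ε r) / lam (ε r) * lam (ε r)) * (u (ε r) / lam (ε r)) =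
              ∑ i, u i * v i / lam i := by
            rw [hs (fun i => 1 * (v i / lam i * lam i) * (u i / lam i))]
            refine Finset.sum_congr rfl fun i _ => ?_
            have := hne i
            field_simp
          rw [e1, huv]; simp
        · simp only [Fin.mk_one, Fin.isValue, one_ne_zero, if_false]
          have e1 : ∑ r, 1 * (v (ε r) / lam (ε r) * lam (ε r)) * (v (ε r) / lam (ε r)) =
              ∑ i, v i * v i / lam i := by
            rw [hs (fun i => 1 * (v i / lam i * lam i) * (v i / lam i))]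
            refine Finset.sum_congr rfl fun i _ => ?_
            have := hne i
            field_simp
          rw [e1, hvv]; simp
  have hBA : B * A = 1 := mul_eq_one_comm.1 hAB
  have h3 := congrFun (congrFun hBA (ε.symm i)) (ε.symm i)
  rw [Matrix.mul_apply, Matrix.one_apply_eq, Fintype.sum_sum_type, Fin.sum_univ_two,
    Fin.sum_univ_succ] at h3
  simp only [A, B, E, Matrix.of_apply, Sum.elim_inl, Sum.elim_inr, Equiv.apply_symm_apply,
    if_true, one_ne_zero, if_false, aug_zero, aug_succ, one_mul, Fin.cons_zero,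
    Fin.cons_succ] at h3
  have h5 : ∑ k : Fin d, p i k * (S⁻¹ * (p i k * lam i)) = S⁻¹ * lam i := by
    have h6 : ∑ k, p i k * p i k = 1 := by
      have := hn i
      rw [← inner_eq_sum, real_inner_self_eq_norm_sq, this]
      norm_num
    have h7 : ∀ k : Fin d, p i k * (S⁻¹ * (p i k * lam i)) = S⁻¹ * lam i * (p i k * p i k) := by
      intro k; ring
    simp_rw [h7]
    rw [← Finset.mul_sum, h6, mul_one]
  rw [h5] at h3
  refine Eq.trans ?_ h3
  have hi := hne i
  have hdS : ((d : ℝ) + 1) / (d * S) = (d * S)⁻¹ + S⁻¹ := by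
    field_simp
    ring
  rw [hdS]
  ring

/-- the linear algebra in the plane -/
lemma plane {α β γ δ a b b0 S s t r : ℝ} (ha : 0 < a) (hD : 0 < a * b - b0 ^ 2)
    (e1 : α * a + β * b0 = 0) (e2 : α * b0 + β * b = S) (e3 : γ * a + δ * b0 = -S)
    (e4 : γ * b0 + δ * b = 0) (hs : s ^ 2 * a = 1) (ht : t ^ 2 * (a * b - b0 ^ 2) = a)
    (hr : r * a = -b0 * t) :
    s * α = s * t * S * r ∧ s * β = s * t * S * t ∧ r * α + t * γ = -(s * t * S * s) ∧
      r * β + t * δ = 0 := by
  have hDne := hD.ne'
  have hane := ha.ne'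
  have hβ : β * (a * b - b0 ^ 2) = S * a := by linear_combination a * e2 - b0 * e1
  have hα : α * (a * b - b0 ^ 2) = -(S * b0) := by linear_combination b * e1 - b0 * e2
  have hγ : γ * (a * b - b0 ^ 2) = -(S * b) := by linear_combination b * e3 - b0 * e4
  have hδ : δ * (a * b - b0 ^ 2) = S * b0 := by linear_combination a * e4 - b0 * e3
  refine ⟨?_, ?_, ?_, ?_⟩
  · -- s α = s t S r
    have h : (a * b - b0 ^ 2) * a * (s * α - s * t * S * r) = 0 := by
      linear_combination s * a * hα - s * S * t * (a * b - b0 ^ 2) * hr + s * S * b0 * ht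
    rcases mul_eq_zero.1 h with h | h
    · exact absurd h (mul_ne_zero hDne hane)
    · linarith
  · have h : (a * b - b0 ^ 2) * (s * β - s * t * S * t) = 0 := by
      linear_combination s * hβ - s * S * ht
    rcases mul_eq_zero.1 h with h | h
    · exact absurd h hDne
    · linarith
  · have h : (a * b - b0 ^ 2) * a * (r * α + t * γ + s * t * S * s) = 0 := by
      linear_combination r * a * hα + t * a * hγ - S * b0 * hr + (a * b - b0 ^ 2) * t * S * hs
    rcases mul_eq_zero.1 h with h | h
    · exact absurd h (mul_ne_zero hDne hane)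
    · linarith
  · have h : (a * b - b0 ^ 2) * (r * β + t * δ) = 0 := by
      linear_combination r * hβ + t * hδ + S * hr
    rcases mul_eq_zero.1 h with h | h
    · exact absurd h hDne
    · linarith

theorem t_STR : S_STR := by
  intro d hd hd0 p g lam hn hG hdet hpos hS hlam h1 h2
  have hd' : (0 : ℝ) < d := by exact_mod_cast hd0
  have hne : ∀ i, lam i ≠ 0 := fun i => (hlam i).ne'
  obtain ⟨k1, k2, k3, k4⟩ : (∑ j : Fin (d + 3), (Gf (d := d) g j).re * (g j).re = 0) ∧
      (∑ j : Fin (d + 3), (Gf (d := d) g j).im * (g j).im = 0) ∧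
      (∑ j : Fin (d + 3), (Gf (d := d) g j).re * (g j).im = SS (d := d) g) ∧
      (∑ j : Fin (d + 3), (Gf (d := d) g j).im * (g j).re = -SS (d := d) g) :=
    Gf_skew (d := d) g hG.sum
  set S : ℝ := SS (d := d) g with hSdef
  -- the sum of the weights
  have hL : ∑ i, lam i = d * S := by
    have e1 : ∑ k : Fin d, ∑ i, aug p i k.succ * (lam i * p i k) = d * S := by
      have : ∀ k : Fin d, ∑ i, aug p i k.succ * (lam i * p i k) = S := by
        intro k
        rw [h1, if_pos rfl]
      simp_rw [this]
      simp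
    rw [← e1, Finset.sum_comm]
    refine Finset.sum_congr rfl fun i _ => ?_
    have h6 : ∑ k, p i k * p i k = 1 := by
      have := hn i
      rw [← inner_eq_sum, real_inner_self_eq_norm_sq, this]
      norm_num
    have h7 : ∀ k : Fin d, aug p i k.succ * (lam i * p i k) = lam i * (p i k * p i k) := by
      intro k; rw [aug_succ]; ring
    simp_rw [h7]
    rw [← Finset.mul_sum, h6, mul_one]
  have hLpos : 0 < ∑ i, lam i := by rw [hL]; positivity
  have hcen : ∀ k : Fin d, ∑ i, lam i * p i k = 0 := by
    intro k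
    have := h1 0 k
    rw [if_neg (Fin.succ_ne_zero k).symm] at this
    rw [← this]
    exact Finset.sum_congr rfl fun i _ => by rw [aug_zero, one_mul]
  have hx0 : ∑ i, (g i).re = 0 := by
    have := congrArg Complex.re hG.sum
    rwa [Complex.re_sum] at this
  have hy0 : ∑ i, (g i).im = 0 := by
    have := congrArg Complex.im hG.sum
    rwa [Complex.im_sum] at this
  -- centred potential
  let X : Fin (d + 3) → ℝ := fun j => (Gf (d := d) g j).re -
    (∑ i, lam i * (Gf (d := d) g i).re) / ∑ i, lam i
  let Y : Fin (d + 3) → ℝ := fun j => (Gf (d := d) g j).im -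
    (∑ i, lam i * (Gf (d := d) g i).im) / ∑ i, lam i
  have hcent : ∀ f : Fin (d + 3) → ℝ, (∀ k : Fin d, ∑ i, lam i * p i k * f i = 0) →
      ∀ l, ∑ i, aug p i l * (lam i * (f i - (∑ i, lam i * f i) / ∑ i, lam i)) = 0 := by
    intro f hf l
    refine Fin.cases ?_ (fun k => ?_) l
    · simp only [aug_zero, one_mul, mul_sub]
      rw [Finset.sum_sub_distrib, ← Finset.sum_mul]
      field_simp
      ring
    · have e1 : ∀ i, aug p i k.succ * (lam i * (f i - (∑ i, lam i * f i) / ∑ i, lam i)) =
          lam i * p i k * f i - (lam i * p i k) * ((∑ i, lam i * f i) / ∑ i, lam i) := by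
        intro i; rw [aug_succ]; ring
      simp_rw [e1]
      rw [Finset.sum_sub_distrib, hf k, ← Finset.sum_mul, hcen k]
      ring
  have h2re : ∀ k : Fin d, ∑ i, lam i * p i k * (Gf (d := d) g i).re = 0 := by
    intro k
    have := congrArg Complex.re (h2 k)
    rw [Complex.re_sum] at this
    simp_rw [Complex.re_ofReal_mul] at this
    exact this
  have h2im : ∀ k : Fin d, ∑ i, lam i * p i k * (Gf (d := d) g i).im = 0 := by
    intro k
    have := congrArg Complex.im (h2 k)
    rw [Complex.im_sum] at this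
    simp_rw [Complex.im_ofReal_mul] at this
    exact this
  obtain ⟨z1, hz1⟩ := ker_eq hG hdet (fun i => lam i * X i) (hcent _ h2re)
  obtain ⟨z2, hz2⟩ := ker_eq hG hdet (fun i => lam i * Y i) (hcent _ h2im)
  -- the numbers
  obtain ⟨α, β, hX⟩ : ∃ α β : ℝ, ∀ i, lam i * X i = α * (g i).re + β * (g i).im :=
    ⟨z1.im, -z1.re, fun i => by rw [hz1 i]; unfold wdg; ring⟩
  obtain ⟨γ, δ, hY⟩ : ∃ γ δ : ℝ, ∀ i, lam i * Y i = γ * (g i).re + δ * (g i).im :=
    ⟨z2.im, -z2.re, fun i => by rw [hz2 i]; unfold wdg; ring⟩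
  obtain ⟨ha, hD⟩ := gauge (fun i => (g i).re) (fun i => (g i).im) lam hlam hG.re_re hG.im_im
    hG.re_im
  set a := ∑ i, (g i).re * (g i).re / lam i with hadef
  set b := ∑ i, (g i).im * (g i).im / lam i with hbdef
  set b0 := ∑ i, (g i).re * (g i).im / lam i with hb0def
  have hX' : ∀ i, X i = α * ((g i).re / lam i) + β * ((g i).im / lam i) := by
    intro i
    have := hX i
    have hi := hne i
    field_simp
    linarith
  have hY' : ∀ i, Y i = γ * ((g i).re / lam i) + δ * ((g i).im / lam i) := by
    intro i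
    have := hY i
    have hi := hne i
    field_simp
    linarith
  have sX : ∀ v : Fin (d + 3) → ℝ, ∑ i, v i = 0 →
      ∑ i, X i * v i = ∑ i, (Gf (d := d) g i).re * v i := by
    intro v hv
    simp only [X, sub_mul]
    rw [Finset.sum_sub_distrib, ← Finset.mul_sum, hv, mul_zero, sub_zero]
    rfl
  have sY : ∀ v : Fin (d + 3) → ℝ, ∑ i, v i = 0 →
      ∑ i, Y i * v i = ∑ i, (Gf (d := d) g i).im * v i := by
    intro v hv
    simp only [Y, sub_mul]
    rw [Finset.sum_sub_distrib, ← Finset.mul_sum, hv, mul_zero, sub_zero]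
    rfl
  have e1 : α * a + β * b0 = 0 := by
    refine Eq.trans ?_ ((sX (fun i => (g i).re) hx0).trans k1)
    rw [hadef, hb0def, Finset.mul_sum, Finset.mul_sum, ← Finset.sum_add_distrib]
    refine Finset.sum_congr rfl fun i _ => ?_
    rw [hX' i]; ring
  have e2 : α * b0 + β * b = S := by
    refine Eq.trans ?_ ((sX (fun i => (g i).im) hy0).trans k3)
    rw [hbdef, hb0def, Finset.mul_sum, Finset.mul_sum, ← Finset.sum_add_distrib]
    refine Finset.sum_congr rfl fun i _ => ?_
    rw [hX' i]; ring
  have e3 : γ * a + δ * b0 = -S := by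
    refine Eq.trans ?_ ((sY (fun i => (g i).re) hx0).trans k4)
    rw [hadef, hb0def, Finset.mul_sum, Finset.mul_sum, ← Finset.sum_add_distrib]
    refine Finset.sum_congr rfl fun i _ => ?_
    rw [hY' i]; ring
  have e4 : γ * b0 + δ * b = 0 := by
    refine Eq.trans ?_ ((sY (fun i => (g i).im) hy0).trans k2)
    rw [hbdef, hb0def, Finset.mul_sum, Finset.mul_sum, ← Finset.sum_add_distrib]
    refine Finset.sum_congr rfl fun i _ => ?_
    rw [hY' i]; ring
  -- the gauge
  obtain ⟨s, hs0, hs⟩ : ∃ s : ℝ, 0 < s ∧ s ^ 2 * a = 1 := by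
    refine ⟨(Real.sqrt a)⁻¹, by positivity, ?_⟩
    rw [inv_pow, Real.sq_sqrt ha.le, inv_mul_cancel₀ ha.ne']
  obtain ⟨t, ht0, ht⟩ : ∃ t : ℝ, 0 < t ∧ t ^ 2 * (a * b - b0 ^ 2) = a := by
    refine ⟨Real.sqrt (a / (a * b - b0 ^ 2)), Real.sqrt_pos.2 (div_pos ha hD), ?_⟩
    rw [Real.sq_sqrt (div_pos ha hD).le, div_mul_cancel₀ _ hD.ne']
  obtain ⟨r, hr⟩ : ∃ r : ℝ, r * a = -b0 * t := ⟨-b0 * t / a, div_mul_cancel₀ _ ha.ne'⟩
  obtain ⟨f1, f2, f3, f4⟩ := plane ha hD e1 e2 e3 e4 hs ht hr
  have hS0 : 0 < s * t * S := by positivity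
  set T : ℝ := (s * t * S)⁻¹ with hT
  have hTpos : 0 < T := inv_pos.2 hS0
  have hTS : T * (s * t * S) = 1 := inv_mul_cancel₀ hS0.ne'
  let u : Fin (d + 3) → ℝ := fun i => s * (g i).re
  let v : Fin (d + 3) → ℝ := fun i => r * (g i).re + t * (g i).im
  have hu0 : ∑ i, u i = 0 := by simp only [u]; rw [← Finset.mul_sum, hx0, mul_zero]
  have hv0 : ∑ i, v i = 0 := by
    simp only [v]
    rw [Finset.sum_add_distrib, ← Finset.mul_sum, ← Finset.mul_sum, hx0, hy0]; ring
  have huu : ∑ i, u i * u i / lam i = 1 := by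
    rw [← hs, hadef, Finset.mul_sum]
    exact Finset.sum_congr rfl fun i _ => by simp only [u]; ring
  have huv : ∑ i, u i * v i / lam i = 0 := by
    have : ∑ i, u i * v i / lam i = s * (r * a + t * b0) := by
      rw [hadef, hb0def, Finset.mul_sum, Finset.mul_sum, ← Finset.sum_add_distrib, Finset.mul_sum]
      exact Finset.sum_congr rfl fun i _ => by simp only [u, v]; ring
    rw [this, hr]; ring
  have hvv : ∑ i, v i * v i / lam i = 1 := by
    have h3 : ∑ i, v i * v i / lam i = r ^ 2 * a + 2 * r * t * b0 + t ^ 2 * b := by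
      rw [hadef, hb0def, hbdef, Finset.mul_sum, Finset.mul_sum, Finset.mul_sum,
        ← Finset.sum_add_distrib, ← Finset.sum_add_distrib]
      exact Finset.sum_congr rfl fun i _ => by simp only [v]; ring
    rw [h3]
    have h4 : a * (r ^ 2 * a + 2 * r * t * b0 + t ^ 2 * b - 1) = 0 := by
      linear_combination (r * a + t * b0) * hr + ht
    rcases mul_eq_zero.1 h4 with h5 | h5
    · exact absurd h5 ha.ne'
    · linarith
  have hGu : ∀ l, ∑ i, aug p i l * u i = 0 := by
    intro l
    have := hG.re l
    have e : ∀ i, aug p i l * u i = s * (aug p i l * (g i).re) := by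
      intro i; simp only [u]; ring
    simp_rw [e]
    rw [← Finset.mul_sum, this, mul_zero]
  have hGv : ∀ l, ∑ i, aug p i l * v i = 0 := by
    intro l
    have e : ∀ i, aug p i l * v i = r * (aug p i l * (g i).re) + t * (aug p i l * (g i).im) := by
      intro i; simp only [v]; ring
    simp_rw [e]
    rw [Finset.sum_add_distrib, ← Finset.mul_sum, ← Finset.mul_sum, hG.re l, hG.im l]
    ring
  -- the function G
  let G : Fin (d + 3) → ℂ := fun i => ⟨v i / lam i, -(u i / lam i)⟩
  have hGval : ∀ i, (lam i : ℂ) * G i = -Complex.I * ⟨u i, v i⟩ := by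
    intro i
    have hi := hne i
    apply Complex.ext
    · rw [Complex.re_ofReal_mul]
      simp only [G, Complex.mul_re, Complex.neg_re, Complex.neg_im, Complex.I_re, Complex.I_im]
      field_simp
      ring
    · rw [Complex.im_ofReal_mul]
      simp only [G, Complex.mul_im, Complex.neg_re, Complex.neg_im, Complex.I_re, Complex.I_im]
      field_simp
      ring
  have hGpot : ∀ i, G i = (T : ℂ) * ⟨s * X i, r * X i + t * Y i⟩ := by
    intro i
    have hi := hne i
    have hTe : ∀ z : ℝ, T * (s * t * S * z) = z := by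
      intro z; rw [← mul_assoc, hTS, one_mul]
    apply Complex.ext
    · rw [Complex.re_ofReal_mul]
      show v i / lam i = T * (s * X i)
      rw [← hTe (v i / lam i)]
      congr 1
      rw [hX' i]
      simp only [v]
      linear_combination (-((g i).re / lam i)) * f1 - ((g i).im / lam i) * f2
    · rw [Complex.im_ofReal_mul]
      show -(u i / lam i) = T * (r * X i + t * Y i)
      rw [← hTe (-(u i / lam i))]
      congr 1
      rw [hX' i, hY' i]
      simp only [u]
      linear_combination (-((g i).re / lam i)) * f3 - ((g i).im / lam i) * f4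
  refine ⟨G, T, ((d : ℝ) + 1) / (d * S), s, r, t, hTpos, by positivity, hs0, ht0, hTS, ?_, ?_, ?_,
    ?_, ?_, ?_⟩
  · exact hGval
  · -- the recurrence
    intro k
    have main : ∀ (k₀ k₁ k₂ : Fin (d + 3)), g k₁ = Gf (d := d) g k₀ - Gf (d := d) g k₂ →
        G k₂ - G k₀ = -(Complex.I * T * lam k₁) * G k₁ := by
      intro k₀ k₁ k₂ hrel
      have hre := congrArg Complex.re hrel
      have him := congrArg Complex.im hrel
      rw [Complex.sub_re] at hre
      rw [Complex.sub_im] at him
      have hXd : X k₂ - X k₀ = -(g k₁).re := by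
        simp only [X]; linarith
      have hYd : Y k₂ - Y k₀ = -(g k₁).im := by
        simp only [Y]; linarith
      have h3 := hGval k₁
      have h4 : -(Complex.I * T * lam k₁) * G k₁ = -(T : ℂ) * ⟨u k₁, v k₁⟩ := by
        have h5 : -(Complex.I * T * lam k₁) * G k₁ =
            -(Complex.I * T) * ((lam k₁ : ℂ) * G k₁) := by ring
        rw [h5, h3]
        linear_combination (T : ℂ) * (⟨u k₁, v k₁⟩ : ℂ) * Complex.I_mul_I
      refine Eq.trans ?_ h4.symm
      rw [hGpot k₂, hGpot k₀, ← mul_sub, neg_mul, ← mul_neg]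
      congr 1
      apply Complex.ext
      · simp only [Complex.sub_re, Complex.neg_re, u]
        linear_combination s * hXd
      · simp only [Complex.sub_im, Complex.neg_im, v]
        linear_combination r * hXd + t * hYd
    exact main k (k + 1 : ZMod (d + 3)) (k + 2 : ZMod (d + 3)) (Gf_rel hd g hG.sum k)
  · -- the frame
    refine ⟨?_, ?_, ?_, ?_⟩
    · show ∑ j : Fin (d + 3), (lam j : ℂ) * G j = 0
      simp_rw [hGval]
      rw [← Finset.mul_sum]
      have : ∑ i, (⟨u i, v i⟩ : ℂ) = 0 := by
        apply Complex.ext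
        · rw [Complex.re_sum]; exact hu0
        · rw [Complex.im_sum]; exact hv0
      rw [this, mul_zero]
    · show ∑ j : Fin (d + 3), lam j * ((G j).re * (G j).re) = 1
      rw [← hvv]
      refine Finset.sum_congr rfl fun i _ => ?_
      have hi := hne i
      simp only [G]
      field_simp
    · show ∑ j : Fin (d + 3), lam j * ((G j).im * (G j).im) = 1
      rw [← huu]
      refine Finset.sum_congr rfl fun i _ => ?_
      have hi := hne i
      simp only [G]
      field_simp
    · show ∑ j : Fin (d + 3), lam j * ((G j).re * (G j).im) = 0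
      have : ∀ i, lam i * ((G i).re * (G i).im) = -(u i * v i / lam i) := by
        intro i
        have hi := hne i
        simp only [G]
        field_simp
      simp_rw [this]
      rw [Finset.sum_neg_distrib, huv, neg_zero]
  · intro i
    have := rows p u v lam S hS hd0 hlam hn hL h1 hGu hGv huu hvv huv i
    refine Eq.trans ?_ this
    have h3 : ‖G i‖ ^ 2 = (v i / lam i) ^ 2 + (u i / lam i) ^ 2 := by
      rw [Complex.sq_norm, Complex.normSq_apply]
      simp only [G]
      ring
    rw [h3]; ring
  · rw [hL]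
    field_simp
  · -- signs
    intro i j hij
    have h3 := hpos i j hij
    have hi := hlam i
    have hj := hlam j
    have h4 : wdg (ee G i) (ee G j) = s * t / (lam i * lam j) * wdg (ee g i) (ee g j) := by
      unfold ee
      rw [wdg_real_mul_left, wdg_real_mul_right, wdg_real_mul_left, wdg_real_mul_right]
      have h5 : wdg (G i) (G j) = s * t / (lam i * lam j) * wdg (g i) (g j) := by
        unfold wdg
        simp only [G, u, v]
        field_simp
        ring
      rw [h5]; ring
    have h6 : 0 < wdg (ee G i) (ee G j) := by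
      rw [h4]; positivity
    exact h6

end Pool.Agent.K3h87.PZ
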